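import Pool.Agent.T9h10.FT.Use
import Pool.Agent.H122R2.N6.Count

/-! From ordered triples of vertices to the missing triples and the quadruples containing them. -/

set_option autoImplicit false
set_option maxRecDepth 100000
open Finset
open scoped Classical

namespace Pool.Agent.T9h10.FT
open Pool.Agent.H122R2.N6 Pool.Agent.H37R3.K5 Pool.Agent.T9h10.FC

section
variable {n : ℕ}

theorem tri_eq {V : Type} [DecidableEq V] (H : Finset (Finset V)) (a b c : V) :
    tri H a b c = if ({a, b, c} : Finset V) ∈ H then 1 else 0 := by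
  unfold tri
  have e : (@insert V (Finset V) (@Finset.instInsert V fun a b => Classical.propDecidable (a = b))
      a (@insert V (Finset V) (@Finset.instInsert V fun a b => Classical.propDecidable (a = b))
        b {c})) = ({a, b, c} : Finset V) := by
    ext t
    simp only [mem_insert, mem_singleton]
  rw [e]
  split_ifs <;> rfl

theorem tri_one {V : Type} [DecidableEq V] {H : Finset (Finset V)} {a b c : V} :
    tri H a b c = 1 ↔ ({a, b, c} : Finset V) ∈ H := by
  rw [tri_eq]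
  split_ifs with h <;> simp [h]

theorem tri_le {V : Type} (H : Finset (Finset V)) (a b c : V) : tri H a b c ≤ 1 := by
  rcases (tri_sy H).b a b c with h | h <;> rw [h]; norm_num

theorem tri_rep {H : Finset (Finset (Fin n))} (h3 : ∀ s ∈ H, s.card = 3) {a b c : Fin n}
    (h : a = b ∨ a = c ∨ b = c) : tri H a b c = 0 := by
  rw [tri_eq, if_neg]
  intro hm
  have h4 := h3 _ hm
  rcases h with rfl | rfl | rfl
  · rw [insert_idem] at h4
    have := card_le_two (a := a) (b := c)
    omega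
  · have e : ({a, b, a} : Finset (Fin n)) = {a, b} := by ext t; simp; tauto
    rw [e] at h4
    have := card_le_two (a := a) (b := b)
    omega
  · have e : ({a, b, b} : Finset (Fin n)) = {a, b} := by ext t; simp
    rw [e] at h4
    have := card_le_two (a := a) (b := b)
    omega

/-- the number of edges inside a set -/
noncomputable def ins (H : Finset (Finset (Fin n))) (S : Finset (Fin n)) : ℕ :=
  (H.filter fun e => e ⊆ S).card

/-- the number of vertices outside `S` which form with `S` a set containing exactly `j` edges -/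
noncomputable def nq (H : Finset (Finset (Fin n))) (S : Finset (Fin n)) (j : ℕ) : ℕ :=
  (univ.filter fun v => v ∉ S ∧ ins H (insert v S) = j).card

theorem ins_four {H : Finset (Finset (Fin n))} (h3 : ∀ s ∈ H, s.card = 3) {x y z w : Fin n}
    (hxy : x ≠ y) (hxz : x ≠ z) (hyz : y ≠ z) (hm : ({x, y, z} : Finset (Fin n)) ∉ H)
    (hw : w ∉ ({x, y, z} : Finset (Fin n))) :
    ins H (insert w {x, y, z}) = tri H x y w + (tri H x z w + tri H y z w) := by
  simp only [mem_insert, mem_singleton, not_or] at hw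
  obtain ⟨h1, h2, h4⟩ := hw
  have hs := tri_sy H
  have h := card_filter_four h3 h1 h2 h4 hxy hxz hyz
  have e0 : tri H x y z = 0 := by rw [tri_eq, if_neg hm]
  have e : ins H (insert w {x, y, z}) = tri H w x y + tri H w x z + tri H w y z + tri H x y z := by
    rw [← h]
    unfold ins
    congr 1
    ext t
    simp only [mem_filter, subset_iff, mem_insert, mem_singleton]
  rw [e, e0, hs.h312 x y w, hs.h312 x z w, hs.h312 y z w]
  omega

theorem cF_eq {H : Finset (Finset (Fin n))} (h3 : ∀ s ∈ H, s.card = 3) (fh : ℕ → ℕ) {x y z : Fin n}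
    (hxy : x ≠ y) (hxz : x ≠ z) (hyz : y ≠ z) (hm : ({x, y, z} : Finset (Fin n)) ∉ H) :
    cF (tri H) fh x y z = fh 0 * (nq H {x, y, z} 0 + 3) + fh 1 * nq H {x, y, z} 1 +
      fh 2 * nq H {x, y, z} 2 + fh 3 * nq H {x, y, z} 3 := by
  set S : Finset (Fin n) := {x, y, z} with hS
  unfold cF
  rw [← sum_add_sum_compl S]
  have hc : S.card = 3 := by
    rw [hS, card_eq_three]
    exact ⟨x, y, z, hxy, hxz, hyz, rfl⟩
  have e0 : tri H x y z = 0 := by rw [tri_eq, if_neg hm]
  have hs := tri_sy H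
  have e1 : ∑ w ∈ S, fh (tri H x y w + (tri H x z w + tri H y z w)) = ∑ _w ∈ S, fh 0 := by
    refine sum_congr rfl fun w hw => ?_
    rw [hS] at hw
    simp only [mem_insert, mem_singleton] at hw
    congr 1
    rcases hw with rfl | rfl | rfl
    · rw [tri_rep h3 (Or.inr (Or.inl rfl)), tri_rep h3 (Or.inr (Or.inl rfl)), hs.h231 w y z, e0]
    · rw [tri_rep h3 (Or.inr (Or.inr rfl)), tri_rep h3 (a := w) (b := z) (c := w) (Or.inr (Or.inl rfl)),
        hs.h132 x w z, e0]
    · rw [tri_rep h3 (a := x) (b := w) (c := w) (Or.inr (Or.inr rfl)),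
        tri_rep h3 (a := y) (b := w) (c := w) (Or.inr (Or.inr rfl)), e0]
  have e2 : ∑ w ∈ Sᶜ, fh (tri H x y w + (tri H x z w + tri H y z w)) =
      ∑ w ∈ Sᶜ, fh (ins H (insert w S)) := by
    refine sum_congr rfl fun w hw => ?_
    rw [ins_four h3 hxy hxz hyz hm (mem_compl.mp hw)]
  have hmap : ∀ w ∈ Sᶜ, ins H (insert w S) ∈ range 4 := by
    intro w hw
    rw [ins_four h3 hxy hxz hyz hm (mem_compl.mp hw), mem_range]
    have := tri_le H x y w
    have := tri_le H x z w
    have := tri_le H y z w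
    omega
  have e3 : ∑ w ∈ Sᶜ, fh (ins H (insert w S)) = ∑ j ∈ range 4, fh j * nq H S j := by
    rw [← sum_fiberwise_of_maps_to hmap]
    refine sum_congr rfl fun j _ => ?_
    have e4 : ∑ w ∈ Sᶜ.filter (fun w => ins H (insert w S) = j), fh (ins H (insert w S)) =
        ∑ w ∈ Sᶜ.filter (fun w => ins H (insert w S) = j), fh j :=
      sum_congr rfl fun w hw => by rw [(mem_filter.mp hw).2]
    rw [e4, sum_const, smul_eq_mul, mul_comm]
    congr 1
    unfold nq
    congr 1
    ext w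
    simp only [mem_filter, mem_compl, mem_univ, true_and]
  rw [e1, e2, e3, sum_const, hc, smul_eq_mul]
  simp only [sum_range_succ, sum_range_zero]
  ring

/-- the excess of a set of three vertices -/
noncomputable def gS (fh : ℕ → ℕ) (p q : ℕ) (H : Finset (Finset (Fin n))) (S : Finset (Fin n)) : ℕ :=
  if S ∈ H then 0 else
    q * (fh 0 * (nq H S 0 + 3) + fh 1 * nq H S 1 + fh 2 * nq H S 2 + fh 3 * nq H S 3) - p * n

theorem two_le (fh : ℕ → ℕ) {m : ℕ} (hm : m ≤ 1) : fh (m + m) ≤ max (fh 0) (fh 2) := by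
  interval_cases m
  · exact le_max_left _ _
  · exact le_max_right _ _

theorem ex_le {H : Finset (Finset (Fin n))} (h3 : ∀ s ∈ H, s.card = 3) (fh : ℕ → ℕ) (p q : ℕ)
    (x y z : Fin n) :
    ex (tri H) fh p q x y z ≤ (if x ≠ y ∧ x ≠ z ∧ y ≠ z then gS fh p q H {x, y, z} else 0) +
      ((if x = y then (q * max (fh 0) (fh 2) - p) * n else 0) +
        ((if x = z then (q * max (fh 0) (fh 2) - p) * n else 0) +
          (if y = z then (q * max (fh 0) (fh 2) - p) * n else 0))) := by
  have hs := tri_sy H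
  have hle : ex (tri H) fh p q x y z ≤ q * cF (tri H) fh x y z - p * n := by
    unfold ex
    rw [Fintype.card_fin]
    calc _ ≤ 1 * (q * cF (tri H) fh x y z - p * n) := Nat.mul_le_mul_right _ (Nat.sub_le _ _)
      _ = _ := one_mul _
  have hdeg : cF (tri H) fh x y z ≤ max (fh 0) (fh 2) * n →
      ex (tri H) fh p q x y z ≤ (q * max (fh 0) (fh 2) - p) * n := by
    intro h
    refine hle.trans ?_
    rw [Nat.sub_mul]
    refine Nat.sub_le_sub_right ?_ _
    calc q * cF (tri H) fh x y z ≤ q * (max (fh 0) (fh 2) * n) := Nat.mul_le_mul_left _ h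
      _ = _ := by ring
  have hsum : ∀ (g : Fin n → ℕ), (∀ w, g w ≤ max (fh 0) (fh 2)) →
      ∑ w, g w ≤ max (fh 0) (fh 2) * n := by
    intro g hg
    calc ∑ w, g w ≤ ∑ _w : Fin n, max (fh 0) (fh 2) := sum_le_sum fun w _ => hg w
      _ = max (fh 0) (fh 2) * n := by
        rw [sum_const, card_univ, Fintype.card_fin, smul_eq_mul, mul_comm]
  by_cases hxy : x = y
  · rw [if_pos hxy]
    refine le_trans (hdeg ?_) (by omega)
    refine hsum _ fun w => ?_
    subst hxy
    rw [tri_rep h3 (Or.inl rfl), Nat.zero_add]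
    exact two_le fh (tri_le H x z w)
  · by_cases hxz : x = z
    · rw [if_pos hxz]
      refine le_trans (hdeg ?_) (by omega)
      refine hsum _ fun w => ?_
      subst hxz
      rw [tri_rep h3 (a := x) (b := x) (c := w) (Or.inl rfl), Nat.zero_add, hs.h213 x y w]
      exact two_le fh (tri_le H x y w)
    · by_cases hyz : y = z
      · rw [if_pos hyz]
        refine le_trans (hdeg ?_) (by omega)
        refine hsum _ fun w => ?_
        subst hyz
        rw [tri_rep h3 (a := y) (b := y) (c := w) (Or.inl rfl), Nat.add_zero]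
        exact two_le fh (tri_le H x y w)
      · rw [if_pos ⟨hxy, hxz, hyz⟩]
        refine le_trans ?_ (Nat.le_add_right _ _)
        unfold gS
        by_cases hm : ({x, y, z} : Finset (Fin n)) ∈ H
        · rw [if_pos hm]
          unfold ex
          have : tri H x y z = 1 := tri_one.mpr hm
          rw [this]
          simp
        · rw [if_neg hm]
          rw [← cF_eq h3 fh hxy hxz hyz hm]
          exact hle

theorem tuples_le (g : Finset (Fin n) → ℕ) :
    ∑ x : Fin n, ∑ y : Fin n, ∑ z : Fin n, (if x ≠ y ∧ x ≠ z ∧ y ≠ z then g {x, y, z} else 0) ≤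
      6 * ∑ S ∈ (univ : Finset (Fin n)).powersetCard 3, g S := by
  set T : Finset (Fin n × Fin n × Fin n) :=
    univ.filter fun t => t.1 ≠ t.2.1 ∧ t.1 ≠ t.2.2 ∧ t.2.1 ≠ t.2.2 with hT
  have e : ∑ x : Fin n, ∑ y : Fin n, ∑ z : Fin n,
      (if x ≠ y ∧ x ≠ z ∧ y ≠ z then g {x, y, z} else 0) = ∑ t ∈ T, g {t.1, t.2.1, t.2.2} := by
    rw [hT, sum_filter, Fintype.sum_prod_type]
    refine sum_congr rfl fun x _ => ?_
    rw [Fintype.sum_prod_type]
  have hm : ∀ t ∈ T, ({t.1, t.2.1, t.2.2} : Finset (Fin n)) ∈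
      (univ : Finset (Fin n)).powersetCard 3 := by
    intro t ht
    have h := (mem_filter.mp ht).2
    rw [mem_powersetCard]
    exact ⟨subset_univ _, card_eq_three.mpr ⟨_, _, _, h.1, h.2.1, h.2.2, rfl⟩⟩
  rw [e, ← sum_fiberwise_of_maps_to hm, mul_sum]
  refine sum_le_sum fun S hS => ?_
  have h1 : ∑ t ∈ T.filter (fun t => ({t.1, t.2.1, t.2.2} : Finset (Fin n)) = S),
      g {t.1, t.2.1, t.2.2} =
      ∑ t ∈ T.filter (fun t => ({t.1, t.2.1, t.2.2} : Finset (Fin n)) = S), g S :=
    sum_congr rfl fun t ht => by rw [(mem_filter.mp ht).2]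
  rw [h1, sum_const, smul_eq_mul]
  refine Nat.mul_le_mul_right _ ?_
  obtain ⟨p, q, r, hpq, hpr, hqr, rfl⟩ := card_eq_three.mp (mem_powersetCard.mp hS).2
  have hsub : T.filter (fun t => ({t.1, t.2.1, t.2.2} : Finset (Fin n)) = {p, q, r}) ⊆
      ({(p, q, r), (p, r, q), (q, p, r), (q, r, p), (r, p, q), (r, q, p)} :
        Finset (Fin n × Fin n × Fin n)) := by
    rintro ⟨x, y, z⟩ ht
    obtain ⟨h1, h2⟩ := mem_filter.mp ht
    obtain ⟨hxy, hxz, hyz⟩ := (mem_filter.mp h1).2
    simp only at h2 hxy hxz hyz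
    have hx : x ∈ ({p, q, r} : Finset (Fin n)) := by rw [← h2]; simp
    have hy : y ∈ ({p, q, r} : Finset (Fin n)) := by rw [← h2]; simp
    have hz : z ∈ ({p, q, r} : Finset (Fin n)) := by rw [← h2]; simp
    simp only [mem_insert, mem_singleton] at hx hy hz
    simp only [mem_insert, mem_singleton, Prod.mk.injEq]
    rcases hx with rfl | rfl | rfl <;> rcases hy with rfl | rfl | rfl <;>
      rcases hz with rfl | rfl | rfl <;> simp_all
  refine (card_le_card hsub).trans ?_
  exact card_le_six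

theorem X3_le {H : Finset (Finset (Fin n))} (h3 : ∀ s ∈ H, s.card = 3) (fh : ℕ → ℕ) (p q : ℕ) :
    ∑ x, ∑ y, ∑ z, ex (tri H) fh p q x y z ≤
      6 * ∑ S ∈ (univ : Finset (Fin n)).powersetCard 3, gS fh p q H S +
        3 * (q * max (fh 0) (fh 2) - p) * n ^ 3 := by
  set C := q * max (fh 0) (fh 2) - p with hC
  have h1 : ∑ x, ∑ y, ∑ z, ex (tri H) fh p q x y z ≤ ∑ x : Fin n, ∑ y : Fin n, ∑ z : Fin n,
      ((if x ≠ y ∧ x ≠ z ∧ y ≠ z then gS fh p q H {x, y, z} else 0) +
      ((if x = y then C * n else 0) + ((if x = z then C * n else 0) + (if y = z then C * n else 0)))) :=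
    sum_le_sum fun x _ => sum_le_sum fun y _ => sum_le_sum fun z _ => ex_le h3 fh p q x y z
  refine h1.trans ?_
  simp only [sum_add_distrib]
  have h2 := tuples_le (gS fh p q H)
  have e1 : ∑ x : Fin n, ∑ y : Fin n, ∑ _z : Fin n, (if x = y then C * n else 0) = C * n ^ 3 := by
    simp only [sum_const, card_univ, Fintype.card_fin, smul_eq_mul, ← mul_sum,
      sum_ite_eq, mem_univ, if_true]
    ring
  have e2 : ∑ x : Fin n, ∑ _y : Fin n, ∑ z : Fin n, (if x = z then C * n else 0) = C * n ^ 3 := by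
    simp only [sum_const, card_univ, Fintype.card_fin, smul_eq_mul,
      sum_ite_eq, mem_univ, if_true]
    ring
  have e3 : ∑ _x : Fin n, ∑ y : Fin n, ∑ z : Fin n, (if y = z then C * n else 0) = C * n ^ 3 := by
    simp only [sum_const, card_univ, Fintype.card_fin, smul_eq_mul,
      sum_ite_eq, mem_univ, if_true]
    ring
  rw [e1, e2, e3]
  have : 3 * C * n ^ 3 = C * n ^ 3 + (C * n ^ 3 + C * n ^ 3) := by ring
  omega

/-- the conclusion for the edges -/
theorem concl {H : Finset (Finset (Fin n))} (h3 : ∀ s ∈ H, s.card = 3) {fh : ℕ → ℕ} {p q A B C : ℕ}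
    (h : (A : ℤ) * (Fintype.card (Fin n) : ℤ) ^ 3 * (∑ a, ∑ b, ∑ c, (tri H a b c : ℤ)) ≤
      (B : ℤ) * (Fintype.card (Fin n) : ℤ) ^ 6 + (C : ℤ) * ((Fintype.card (Fin n) : ℤ) ^ 2 *
        ∑ x, ∑ y, ∑ z, (ex (tri H) fh p q x y z : ℤ))) :
    A * 6 * (n * H.card) ≤ B * n ^ 4 + C *
      (6 * ∑ S ∈ (univ : Finset (Fin n)).powersetCard 3, gS fh p q H S +
        3 * (q * max (fh 0) (fh 2) - p) * n ^ 3) := by
  rcases Nat.eq_zero_or_pos n with h0 | hn
  · subst h0; simp
  rw [Fintype.card_fin] at h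
  have hR : (6 : ℤ) * (H.card : ℤ) ≤ ∑ a, ∑ b, ∑ c, (tri H a b c : ℤ) := by
    exact_mod_cast six_card_le h3
  set K : ℕ := 6 * ∑ S ∈ (univ : Finset (Fin n)).powersetCard 3, gS fh p q H S +
        3 * (q * max (fh 0) (fh 2) - p) * n ^ 3 with hK
  have hX : ∑ x, ∑ y, ∑ z, (ex (tri H) fh p q x y z : ℤ) ≤ (K : ℤ) := by
    exact_mod_cast X3_le h3 fh p q
  set R : ℤ := ∑ a, ∑ b, ∑ c, (tri H a b c : ℤ) with hRd
  set X : ℤ := ∑ x, ∑ y, ∑ z, (ex (tri H) fh p q x y z : ℤ) with hXd
  have hn2 : (0 : ℤ) < (n : ℤ) ^ 2 := by positivity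
  have hn1 : (0 : ℤ) ≤ (n : ℤ) := by positivity
  have hA : (0 : ℤ) ≤ (A : ℤ) * (n : ℤ) := by positivity
  have hC : (0 : ℤ) ≤ (C : ℤ) := by positivity
  have h7 : (n : ℤ) ^ 2 * ((A : ℤ) * (n : ℤ) * R) ≤ (n : ℤ) ^ 2 *
      ((B : ℤ) * (n : ℤ) ^ 4 + (C : ℤ) * X) := by
    calc _ = (A : ℤ) * (n : ℤ) ^ 3 * R := by ring
      _ ≤ _ := h
      _ = _ := by ring
  have h8 := le_of_mul_le_mul_left h7 hn2
  have h9 := mul_le_mul_of_nonneg_left hR hA
  have h10 := mul_le_mul_of_nonneg_left hX hC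
  have h11 : (A : ℤ) * 6 * ((n : ℤ) * (H.card : ℤ)) ≤ (B : ℤ) * (n : ℤ) ^ 4 + (C : ℤ) * (K : ℤ) := by
    linarith
  exact_mod_cast h11

end
end Pool.Agent.T9h10.FT
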