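import Pool.Agent.T9h10.FT.Pen

/-! From a certificate to an inequality for the missing triples. -/

set_option autoImplicit false
set_option maxRecDepth 100000
set_option maxHeartbeats 4000000
set_option linter.unusedSimpArgs false
set_option linter.unusedVariables false
open Finset

namespace Pool.Agent.T9h10.FT
open Pool.Agent.H122R2.N6 Pool.Agent.H37R3.Pen Pool.Agent.H37R3.K5 Pool.Agent.Y580.FL Pool.Agent.T9h10.FC

section
variable {V : Type} [Fintype V] (E : V → V → V → ℕ)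

/-- the excess of a missing triple -/
def ex (fh : ℕ → ℕ) (p q : ℕ) (x y z : V) : ℕ :=
  (1 - E x y z) * (q * cF E fh x y z - p * Fintype.card V)

/-- relations between the tables -/
def Rel5 (zb : ℕ → ℕ) (mu : ℕ → ℕ → ℕ) (K0 P M : ℕ) : Prop := ∀ a b c d e : V,
  zb (cd10 (E a b c) (E a b d) (E a c d) (E b c d) (E a b e) (E a c e) (E b c e) (E a d e) (E b d e) (E c d e)) + P * (mu (cd10 (E a b c) (E a b d) (E a c d) (E b c d) (E a b e) (E a c e) (E b c e) (E a d e) (E b d e) (E c d e)) 0 + (mu (cd10 (E a b c) (E a b d) (E a c d) (E b c d) (E a b e) (E a c e) (E b c e) (E a d e) (E b d e) (E c d e)) 1 + (mu (cd10 (E a b c) (E a b d) (E a c d) (E b c d) (E a b e) (E a c e) (E b c e) (E a d e) (E b d e) (E c d e)) 2 + (mu (cd10 (E a b c) (E a b d) (E a c d) (E b c d) (E a b e) (E a c e) (E b c e) (E a d e) (E b d e) (E c d e)) 3 + (mu (cd10 (E a b c) (E a b d) (E a c d) (E b c d) (E a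 b e) (E a c e) (E b c e) (E a d e) (E b d e) (E c d e)) 4 + (mu (cd10 (E a b c) (E a b d) (E a c d) (E b c d) (E a b e) (E a c e) (E b c e) (E a d e) (E b d e) (E c d e)) 5 + (mu (cd10 (E a b c) (E a b d) (E a c d) (E b c d) (E a b e) (E a c e) (E b c e) (E a d e) (E b d e) (E c d e)) 6 + (mu (cd10 (E a b c) (E a b d) (E a c d) (E b c d) (E a b e) (E a c e) (E b c e) (E a d e) (E b d e) (E c d e)) 7 + (mu (cd10 (E a b c) (E a b d) (E a c d) (E b c d) (E a b e) (E a c e) (E b c e) (E a d e) (E b d e) (E c d e)) 8 + (mu (cd10 (E a b c) (E a b d) (E a c d) (E b c d) (E a b e) (E a c e) (E b c e) (E a d e) (E b d e) (E c d e)) 9)))))))))) = K0 ∧ mu (cd10 (E a b c) (E a b d) (E a c d) (E b c d) (E a b e) (E a c e) (E b c e) (E a d e) (E b d e) (E c d e)) 0 ≤ M * (1 - (E a b c)) ∧ mu (cd10 (E a b c) (E a b d) (E a c d) (E b c d) (E a b e) (E a c e) (E b c e) (E a d e) (E b d e) (E c d e))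 1 ≤ M * (1 - (E a b d)) ∧ mu (cd10 (E a b c) (E a b d) (E a c d) (E b c d) (E a b e) (E a c e) (E b c e) (E a d e) (E b d e) (E c d e)) 2 ≤ M * (1 - (E a c d)) ∧ mu (cd10 (E a b c) (E a b d) (E a c d) (E b c d) (E a b e) (E a c e) (E b c e) (E a d e) (E b d e) (E c d e)) 3 ≤ M * (1 - (E b c d)) ∧ mu (cd10 (E a b c) (E a b d) (E a c d) (E b c d) (E a b e) (E a c e) (E b c e) (E a d e) (E b d e) (E c d e)) 4 ≤ M * (1 - (E a b e)) ∧ mu (cd10 (E a b c) (E a b d) (E a c d) (E b c d) (E a b e) (E a c e) (E b c e) (E a d e) (E b d e) (E c d e)) 5 ≤ M * (1 - (E a c e)) ∧ mu (cd10 (E a b c) (E a b d) (E a c d) (E b c d) (E a b e) (E a c e) (E b c e) (E a d e) (E b d e) (E c d e)) 6 ≤ M * (1 - (E b c e)) ∧ mu (cd10 (E a b c) (E a b d) (E a c d) (E b c d) (E a b e) (E a c e) (E b c e) (E a d e) (E b d e) (E c d e)) 7 ≤ M * (1 - (E a d e)) ∧ mu (cd10 (E a b c) (E a b d) (E a c d) (E b c d) (E a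 b e) (E a c e) (E b c e) (E a d e) (E b d e) (E c d e)) 8 ≤ M * (1 - (E b d e)) ∧ mu (cd10 (E a b c) (E a b d) (E a c d) (E b c d) (E a b e) (E a c e) (E b c e) (E a d e) (E b d e) (E c d e)) 9 ≤ M * (1 - (E c d e))

theorem term (u s D N p q M : ℕ) (h : u ≤ M * s) :
    (u : ℤ) * ((q : ℤ) * (D : ℤ) - (p : ℤ) * (N : ℤ)) ≤ (M : ℤ) * ((s * (q * D - p * N) : ℕ) : ℤ) := by
  rcases le_total (q * D) (p * N) with h1 | h1
  · rw [Nat.sub_eq_zero_of_le h1, Nat.mul_zero]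
    have h2 : ((q : ℤ) * (D : ℤ) - (p : ℤ) * (N : ℤ)) ≤ 0 := by
      have : ((q : ℤ) * (D : ℤ)) ≤ (p : ℤ) * (N : ℤ) := by exact_mod_cast h1
      linarith
    have h3 : (0 : ℤ) ≤ (u : ℤ) := by positivity
    have := mul_nonpos_of_nonneg_of_nonpos h3 h2
    simpa using this
  · obtain ⟨r, hr⟩ := Nat.exists_eq_add_of_le h1
    have h2 : q * D - p * N = r := by omega
    have h3 : ((q : ℤ) * (D : ℤ) - (p : ℤ) * (N : ℤ)) = (r : ℤ) := by
      have : ((q : ℤ) * (D : ℤ)) = (p : ℤ) * (N : ℤ) + (r : ℤ) := by exact_mod_cast hr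
      linarith
    rw [h2, h3]
    have h4 : u * r ≤ M * s * r := Nat.mul_le_mul_right r h
    have h5 : (u : ℤ) * (r : ℤ) ≤ (M : ℤ) * (s : ℤ) * (r : ℤ) := by exact_mod_cast h4
    push_cast
    linarith

theorem S5_le {zb : ℕ → ℕ} {kt mu : ℕ → ℕ → ℕ} {fh : ℕ → ℕ} {K0 U p q M : ℕ}
    (hr : Rel5 E zb mu K0 (U * p) M) (hk : ∀ g t, kt g t = U * q * mu g t) (a b c d e : V) :
    (S5 E zb kt fh a b c d e : ℤ) ≤
    (K0 : ℤ) * (Fintype.card V : ℤ) + (U : ℤ) * (M : ℤ) * ((ex E fh p q a b c : ℤ) + (ex E fh p q a b d : ℤ) + (ex E fh p q a c d : ℤ) + (ex E fh p q b c d : ℤ) + (ex E fh p q a b e : ℤ) + (ex E fh p q a c e : ℤ) + (ex E fh p q b c e : ℤ) + (ex E fh p q a d e : ℤ) + (ex E fh p q b d e : ℤ) + (ex E fh p q c d e : ℤ)) := by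
  obtain ⟨hz, m0, m1, m2, m3, m4, m5, m6, m7, m8, m9⟩ := hr a b c d e
  have t0 := term (mu (cd10 (E a b c) (E a b d) (E a c d) (E b c d) (E a b e) (E a c e) (E b c e) (E a d e) (E b d e) (E c d e)) 0) (1 - E a b c) (cF E fh a b c) (Fintype.card V) p q M m0
  have t1 := term (mu (cd10 (E a b c) (E a b d) (E a c d) (E b c d) (E a b e) (E a c e) (E b c e) (E a d e) (E b d e) (E c d e)) 1) (1 - E a b d) (cF E fh a b d) (Fintype.card V) p q M m1
  have t2 := term (mu (cd10 (E a b c) (E a b d) (E a c d) (E b c d) (E a b e) (E a c e) (E b c e) (E a d e) (E b d e) (E c d e)) 2) (1 - E a c d) (cF E fh a c d) (Fintype.card V) p q M m2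
  have t3 := term (mu (cd10 (E a b c) (E a b d) (E a c d) (E b c d) (E a b e) (E a c e) (E b c e) (E a d e) (E b d e) (E c d e)) 3) (1 - E b c d) (cF E fh b c d) (Fintype.card V) p q M m3
  have t4 := term (mu (cd10 (E a b c) (E a b d) (E a c d) (E b c d) (E a b e) (E a c e) (E b c e) (E a d e) (E b d e) (E c d e)) 4) (1 - E a b e) (cF E fh a b e) (Fintype.card V) p q M m4
  have t5 := term (mu (cd10 (E a b c) (E a b d) (E a c d) (E b c d) (E a b e) (E a c e) (E b c e) (E a d e) (E b d e) (E c d e)) 5) (1 - E a c e) (cF E fh a c e) (Fintype.card V) p q M m5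
  have t6 := term (mu (cd10 (E a b c) (E a b d) (E a c d) (E b c d) (E a b e) (E a c e) (E b c e) (E a d e) (E b d e) (E c d e)) 6) (1 - E b c e) (cF E fh b c e) (Fintype.card V) p q M m6
  have t7 := term (mu (cd10 (E a b c) (E a b d) (E a c d) (E b c d) (E a b e) (E a c e) (E b c e) (E a d e) (E b d e) (E c d e)) 7) (1 - E a d e) (cF E fh a d e) (Fintype.card V) p q M m7
  have t8 := term (mu (cd10 (E a b c) (E a b d) (E a c d) (E b c d) (E a b e) (E a c e) (E b c e) (E a d e) (E b d e) (E c d e)) 8) (1 - E b d e) (cF E fh b d e) (Fintype.card V) p q M m8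
  have t9 := term (mu (cd10 (E a b c) (E a b d) (E a c d) (E b c d) (E a b e) (E a c e) (E b c e) (E a d e) (E b d e) (E c d e)) 9) (1 - E c d e) (cF E fh c d e) (Fintype.card V) p q M m9
  have hz2 : (zb (cd10 (E a b c) (E a b d) (E a c d) (E b c d) (E a b e) (E a c e) (E b c e) (E a d e) (E b d e) (E c d e)) : ℤ) = (K0 : ℤ) - (U : ℤ) * (p : ℤ) * ((mu (cd10 (E a b c) (E a b d) (E a c d) (E b c d) (E a b e) (E a c e) (E b c e) (E a d e) (E b d e) (E c d e)) 0 : ℤ) + ((mu (cd10 (E a b c) (E a b d) (E a c d) (E b c d) (E a b e) (E a c e) (E b c e) (E a d e) (E b d e) (E c d e)) 1 : ℤ) + ((mu (cd10 (E a b c) (E a b d) (E a c d) (E b c d) (E a b e) (E a c e) (E b c e) (E a d e) (E b d e) (E c d e)) 2 : ℤ) + ((mu (cd10 (E a b c) (E a b d) (E a c d) (E b c d) (E a b e) (E a c e) (E b c e) (E a d e) (E b d e) (E c d e)) 3 : ℤ) + ((mu (cd10 (E a b c) (E a b d) (E a c d) (E b c d) (E a b e) (E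 a c e) (E b c e) (E a d e) (E b d e) (E c d e)) 4 : ℤ) + ((mu (cd10 (E a b c) (E a b d) (E a c d) (E b c d) (E a b e) (E a c e) (E b c e) (E a d e) (E b d e) (E c d e)) 5 : ℤ) + ((mu (cd10 (E a b c) (E a b d) (E a c d) (E b c d) (E a b e) (E a c e) (E b c e) (E a d e) (E b d e) (E c d e)) 6 : ℤ) + ((mu (cd10 (E a b c) (E a b d) (E a c d) (E b c d) (E a b e) (E a c e) (E b c e) (E a d e) (E b d e) (E c d e)) 7 : ℤ) + ((mu (cd10 (E a b c) (E a b d) (E a c d) (E b c d) (E a b e) (E a c e) (E b c e) (E a d e) (E b d e) (E c d e)) 8 : ℤ) + ((mu (cd10 (E a b c) (E a b d) (E a c d) (E b c d) (E a b e) (E a c e) (E b c e) (E a d e) (E b d e) (E c d e)) 9 : ℤ))))))))))) := by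
    have : ((zb (cd10 (E a b c) (E a b d) (E a c d) (E b c d) (E a b e) (E a c e) (E b c e) (E a d e) (E b d e) (E c d e)) : ℕ) : ℤ) + (U : ℤ) * (p : ℤ) * ((mu (cd10 (E a b c) (E a b d) (E a c d) (E b c d) (E a b e) (E a c e) (E b c e) (E a d e) (E b d e) (E c d e)) 0 : ℤ) + ((mu (cd10 (E a b c) (E a b d) (E a c d) (E b c d) (E a b e) (E a c e) (E b c e) (E a d e) (E b d e) (E c d e)) 1 : ℤ) + ((mu (cd10 (E a b c) (E a b d) (E a c d) (E b c d) (E a b e) (E a c e) (E b c e) (E a d e) (E b d e) (E c d e)) 2 : ℤ) + ((mu (cd10 (E a b c) (E a b d) (E a c d) (E b c d) (E a b e) (E a c e) (E b c e) (E a d e) (E b d e) (E c d e)) 3 : ℤ) + ((mu (cd10 (E a b c) (E a b d) (E a c d) (E b c d) (E a b e) (E a c e) (E b c e) (E a d e) (E b d e) (E c d e)) 4 : ℤ) + ((mu (cd10 (E a b c) (E a b d) (E a c d) (E b c d) (E a b e) (E a c e) (E b c e) (E a d e) (E b d e) (E c d e)) 5 : ℤ) + ((mu (cd10 (E a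 b c) (E a b d) (E a c d) (E b c d) (E a b e) (E a c e) (E b c e) (E a d e) (E b d e) (E c d e)) 6 : ℤ) + ((mu (cd10 (E a b c) (E a b d) (E a c d) (E b c d) (E a b e) (E a c e) (E b c e) (E a d e) (E b d e) (E c d e)) 7 : ℤ) + ((mu (cd10 (E a b c) (E a b d) (E a c d) (E b c d) (E a b e) (E a c e) (E b c e) (E a d e) (E b d e) (E c d e)) 8 : ℤ) + ((mu (cd10 (E a b c) (E a b d) (E a c d) (E b c d) (E a b e) (E a c e) (E b c e) (E a d e) (E b d e) (E c d e)) 9 : ℤ))))))))))) = (K0 : ℤ) := by exact_mod_cast hz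
    linarith
  have eS : (S5 E zb kt fh a b c d e : ℤ) = (K0 : ℤ) * (Fintype.card V : ℤ) + (U : ℤ) * ((mu (cd10 (E a b c) (E a b d) (E a c d) (E b c d) (E a b e) (E a c e) (E b c e) (E a d e) (E b d e) (E c d e)) 0 : ℤ) * ((q : ℤ) * (cF E fh a b c : ℤ) - (p : ℤ) * (Fintype.card V : ℤ)) + (mu (cd10 (E a b c) (E a b d) (E a c d) (E b c d) (E a b e) (E a c e) (E b c e) (E a d e) (E b d e) (E c d e)) 1 : ℤ) * ((q : ℤ) * (cF E fh a b d : ℤ) - (p : ℤ) * (Fintype.card V : ℤ)) + (mu (cd10 (E a b c) (E a b d) (E a c d) (E b c d) (E a b e) (E a c e) (E b c e) (E a d e) (E b d e) (E c d e)) 2 : ℤ) * ((q : ℤ) * (cF E fh a c d : ℤ) - (p : ℤ) * (Fintype.card V : ℤ)) + (mu (cd10 (E a b c) (E a b d) (E a c d) (E b c d) (E a b e) (E a c e) (E b c e) (E a d e) (E b d e) (E c d e)) 3 : ℤ) * ((q : ℤ) * (cF E fh b c d : ℤ) - (p : ℤ) * (Fintype.card V : ℤ)) + (mu (cd10 (E a b c) (E a b d) (E a c d) (E b c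 d) (E a b e) (E a c e) (E b c e) (E a d e) (E b d e) (E c d e)) 4 : ℤ) * ((q : ℤ) * (cF E fh a b e : ℤ) - (p : ℤ) * (Fintype.card V : ℤ)) + (mu (cd10 (E a b c) (E a b d) (E a c d) (E b c d) (E a b e) (E a c e) (E b c e) (E a d e) (E b d e) (E c d e)) 5 : ℤ) * ((q : ℤ) * (cF E fh a c e : ℤ) - (p : ℤ) * (Fintype.card V : ℤ)) + (mu (cd10 (E a b c) (E a b d) (E a c d) (E b c d) (E a b e) (E a c e) (E b c e) (E a d e) (E b d e) (E c d e)) 6 : ℤ) * ((q : ℤ) * (cF E fh b c e : ℤ) - (p : ℤ) * (Fintype.card V : ℤ)) + (mu (cd10 (E a b c) (E a b d) (E a c d) (E b c d) (E a b e) (E a c e) (E b c e) (E a d e) (E b d e) (E c d e)) 7 : ℤ) * ((q : ℤ) * (cF E fh a d e : ℤ) - (p : ℤ) * (Fintype.card V : ℤ)) + (mu (cd10 (E a b c) (E a b d) (E a c d) (E b c d) (E a b e) (E a c e) (E b c e) (E a d e) (E b d e) (E c d e)) 8 : ℤ) * ((q : ℤ) * (cF E fh b d e : ℤ) - (p : ℤ) * (Fintype.card V : ℤ)) + (mu (cd10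 (E a b c) (E a b d) (E a c d) (E b c d) (E a b e) (E a c e) (E b c e) (E a d e) (E b d e) (E c d e)) 9 : ℤ) * ((q : ℤ) * (cF E fh c d e : ℤ) - (p : ℤ) * (Fintype.card V : ℤ))) := by
    unfold S5
    simp only [hk]
    push_cast
    rw [hz2]
    ring
  rw [eS]
  have hU : (0 : ℤ) ≤ (U : ℤ) := by positivity
  have hs : (mu (cd10 (E a b c) (E a b d) (E a c d) (E b c d) (E a b e) (E a c e) (E b c e) (E a d e) (E b d e) (E c d e)) 0 : ℤ) * ((q : ℤ) * (cF E fh a b c : ℤ) - (p : ℤ) * (Fintype.card V : ℤ)) + (mu (cd10 (E a b c) (E a b d) (E a c d) (E b c d) (E a b e) (E a c e) (E b c e) (E a d e) (E b d e) (E c d e)) 1 : ℤ) * ((q : ℤ) * (cF E fh a b d : ℤ) - (p : ℤ) * (Fintype.card V : ℤ)) + (mu (cd10 (E a b c) (E a b d) (E a c d) (E b c d) (E a b e) (E a c e) (E b c e) (E a d e) (E b d e) (E c d e)) 2 : ℤ) * ((q : ℤ) * (cF E fh a c d : ℤ) - (p : ℤ) * (Fintype.card V : ℤ)) + (mu (cd10 (E a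 b c) (E a b d) (E a c d) (E b c d) (E a b e) (E a c e) (E b c e) (E a d e) (E b d e) (E c d e)) 3 : ℤ) * ((q : ℤ) * (cF E fh b c d : ℤ) - (p : ℤ) * (Fintype.card V : ℤ)) + (mu (cd10 (E a b c) (E a b d) (E a c d) (E b c d) (E a b e) (E a c e) (E b c e) (E a d e) (E b d e) (E c d e)) 4 : ℤ) * ((q : ℤ) * (cF E fh a b e : ℤ) - (p : ℤ) * (Fintype.card V : ℤ)) + (mu (cd10 (E a b c) (E a b d) (E a c d) (E b c d) (E a b e) (E a c e) (E b c e) (E a d e) (E b d e) (E c d e)) 5 : ℤ) * ((q : ℤ) * (cF E fh a c e : ℤ) - (p : ℤ) * (Fintype.card V : ℤ)) + (mu (cd10 (E a b c) (E a b d) (E a c d) (E b c d) (E a b e) (E a c e) (E b c e) (E a d e) (E b d e) (E c d e)) 6 : ℤ) * ((q : ℤ) * (cF E fh b c e : ℤ) - (p : ℤ) * (Fintype.card V : ℤ)) + (mu (cd10 (E a b c) (E a b d) (E a c d) (E b c d) (E a b e) (E a c e) (E b c e) (E a d e) (E b d e) (E c d e)) 7 : ℤ) * ((q : ℤ) * (cF E fh a d e : ℤ) - (p : ℤ) *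 (Fintype.card V : ℤ)) + (mu (cd10 (E a b c) (E a b d) (E a c d) (E b c d) (E a b e) (E a c e) (E b c e) (E a d e) (E b d e) (E c d e)) 8 : ℤ) * ((q : ℤ) * (cF E fh b d e : ℤ) - (p : ℤ) * (Fintype.card V : ℤ)) + (mu (cd10 (E a b c) (E a b d) (E a c d) (E b c d) (E a b e) (E a c e) (E b c e) (E a d e) (E b d e) (E c d e)) 9 : ℤ) * ((q : ℤ) * (cF E fh c d e : ℤ) - (p : ℤ) * (Fintype.card V : ℤ)) ≤ (M : ℤ) * ((ex E fh p q a b c : ℤ) + (ex E fh p q a b d : ℤ) + (ex E fh p q a c d : ℤ) + (ex E fh p q b c d : ℤ) + (ex E fh p q a b e : ℤ) + (ex E fh p q a c e : ℤ) + (ex E fh p q b c e : ℤ) + (ex E fh p q a d e : ℤ) + (ex E fh p q b d e : ℤ) + (ex E fh p q c d e : ℤ)) := by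
    unfold ex
    linarith
  have := mul_le_mul_of_nonneg_left hs hU
  linarith

theorem dist0 (f : V → V → V → ℤ) : ∑ a : V, ∑ b : V, ∑ c : V, ∑ d : V, ∑ e : V, f a b c =
    (Fintype.card V : ℤ) ^ 2 * ∑ x, ∑ y, ∑ z, f x y z := by
  simp only [sum_const, card_univ, nsmul_eq_mul, ← mul_sum]
  ring

theorem dist1 (f : V → V → V → ℤ) : ∑ a : V, ∑ b : V, ∑ c : V, ∑ d : V, ∑ e : V, f a b d =
    (Fintype.card V : ℤ) ^ 2 * ∑ x, ∑ y, ∑ z, f x y z := by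
  simp only [sum_const, card_univ, nsmul_eq_mul, ← mul_sum]
  ring

theorem dist2 (f : V → V → V → ℤ) : ∑ a : V, ∑ b : V, ∑ c : V, ∑ d : V, ∑ e : V, f a c d =
    (Fintype.card V : ℤ) ^ 2 * ∑ x, ∑ y, ∑ z, f x y z := by
  simp only [sum_const, card_univ, nsmul_eq_mul, ← mul_sum]
  ring

theorem dist3 (f : V → V → V → ℤ) : ∑ a : V, ∑ b : V, ∑ c : V, ∑ d : V, ∑ e : V, f b c d =
    (Fintype.card V : ℤ) ^ 2 * ∑ x, ∑ y, ∑ z, f x y z := by
  simp only [sum_const, card_univ, nsmul_eq_mul, ← mul_sum]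
  ring

theorem dist4 (f : V → V → V → ℤ) : ∑ a : V, ∑ b : V, ∑ c : V, ∑ d : V, ∑ e : V, f a b e =
    (Fintype.card V : ℤ) ^ 2 * ∑ x, ∑ y, ∑ z, f x y z := by
  simp only [sum_const, card_univ, nsmul_eq_mul, ← mul_sum]
  ring

theorem dist5 (f : V → V → V → ℤ) : ∑ a : V, ∑ b : V, ∑ c : V, ∑ d : V, ∑ e : V, f a c e =
    (Fintype.card V : ℤ) ^ 2 * ∑ x, ∑ y, ∑ z, f x y z := by
  simp only [sum_const, card_univ, nsmul_eq_mul, ← mul_sum]
  ring

theorem dist6 (f : V → V → V → ℤ) : ∑ a : V, ∑ b : V, ∑ c : V, ∑ d : V, ∑ e : V, f b c e =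
    (Fintype.card V : ℤ) ^ 2 * ∑ x, ∑ y, ∑ z, f x y z := by
  simp only [sum_const, card_univ, nsmul_eq_mul, ← mul_sum]
  ring

theorem dist7 (f : V → V → V → ℤ) : ∑ a : V, ∑ b : V, ∑ c : V, ∑ d : V, ∑ e : V, f a d e =
    (Fintype.card V : ℤ) ^ 2 * ∑ x, ∑ y, ∑ z, f x y z := by
  simp only [sum_const, card_univ, nsmul_eq_mul, ← mul_sum]
  ring

theorem dist8 (f : V → V → V → ℤ) : ∑ a : V, ∑ b : V, ∑ c : V, ∑ d : V, ∑ e : V, f b d e =
    (Fintype.card V : ℤ) ^ 2 * ∑ x, ∑ y, ∑ z, f x y z := by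
  simp only [sum_const, card_univ, nsmul_eq_mul, ← mul_sum]
  ring

theorem dist9 (f : V → V → V → ℤ) : ∑ a : V, ∑ b : V, ∑ c : V, ∑ d : V, ∑ e : V, f c d e =
    (Fintype.card V : ℤ) ^ 2 * ∑ x, ∑ y, ∑ z, f x y z := by
  simp only [sum_const, card_univ, nsmul_eq_mul, ← mul_sum]
  ring

theorem sum_S5_le {zb : ℕ → ℕ} {kt mu : ℕ → ℕ → ℕ} {fh : ℕ → ℕ} {K0 U p q M : ℕ}
    (hr : Rel5 E zb mu K0 (U * p) M) (hk : ∀ g t, kt g t = U * q * mu g t) :
    ∑ a, ∑ b, ∑ c, ∑ d, ∑ e, (S5 E zb kt fh a b c d e : ℤ) ≤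
      (K0 : ℤ) * (Fintype.card V : ℤ) ^ 6 + 10 * (U : ℤ) * (M : ℤ) *
        ((Fintype.card V : ℤ) ^ 2 * ∑ x, ∑ y, ∑ z, (ex E fh p q x y z : ℤ)) := by
  have h2 : ∑ a, ∑ b, ∑ c, ∑ d, ∑ e, (S5 E zb kt fh a b c d e : ℤ) ≤
      ∑ a : V, ∑ b : V, ∑ c : V, ∑ d : V, ∑ e : V, ((K0 : ℤ) * (Fintype.card V : ℤ) +
        (U : ℤ) * (M : ℤ) * ((ex E fh p q a b c : ℤ) + (ex E fh p q a b d : ℤ) + (ex E fh p q a c d : ℤ) + (ex E fh p q b c d : ℤ) + (ex E fh p q a b e : ℤ) + (ex E fh p q a c e : ℤ) + (ex E fh p q b c e : ℤ) + (ex E fh p q a d e : ℤ) + (ex E fh p q b d e : ℤ) + (ex E fh p q c d e : ℤ))) :=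
    sum_le_sum fun a _ => sum_le_sum fun b _ => sum_le_sum fun c _ => sum_le_sum fun d _ =>
      sum_le_sum fun e _ => S5_le E hr hk a b c d e
  have h3 : ∑ a : V, ∑ b : V, ∑ c : V, ∑ d : V, ∑ e : V, ((K0 : ℤ) * (Fintype.card V : ℤ) +
        (U : ℤ) * (M : ℤ) * ((ex E fh p q a b c : ℤ) + (ex E fh p q a b d : ℤ) + (ex E fh p q a c d : ℤ) + (ex E fh p q b c d : ℤ) + (ex E fh p q a b e : ℤ) + (ex E fh p q a c e : ℤ) + (ex E fh p q b c e : ℤ) + (ex E fh p q a d e : ℤ) + (ex E fh p q b d e : ℤ) + (ex E fh p q c d e : ℤ))) =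
      (K0 : ℤ) * (Fintype.card V : ℤ) ^ 6 + 10 * (U : ℤ) * (M : ℤ) *
        ((Fintype.card V : ℤ) ^ 2 * ∑ x, ∑ y, ∑ z, (ex E fh p q x y z : ℤ)) := by
    simp only [mul_add, sum_add_distrib]
    simp only [← mul_sum]
    rw [dist0 (fun x y z => (ex E fh p q x y z : ℤ)), dist1 (fun x y z => (ex E fh p q x y z : ℤ)), dist2 (fun x y z => (ex E fh p q x y z : ℤ)), dist3 (fun x y z => (ex E fh p q x y z : ℤ)), dist4 (fun x y z => (ex E fh p q x y z : ℤ)), dist5 (fun x y z => (ex E fh p q x y z : ℤ)), dist6 (fun x y z => (ex E fh p q x y z : ℤ)), dist7 (fun x y z => (ex E fh p q x y z : ℤ)), dist8 (fun x y z => (ex E fh p q x y z : ℤ)), dist9 (fun x y z => (ex E fh p q x y z : ℤ))]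
    simp only [sum_const, card_univ, nsmul_eq_mul]
    ring
  rw [h3] at h2
  exact h2

end
end Pool.Agent.T9h10.FT
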